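import Pool.Agent.H66.Rig.GenC

namespace Pool.Agent.Results.MP_562323_ag.GradedPart

open MvPolynomial

/-- Let `K` be any field, `S = K[x_1, ..., x_n]` with weights `w_i ≥ 0`, `S_0 = K[x_i : w_i = 0]`, and let
`I ≠ S` be an ideal which is homogeneous for `w` and contains a power of `m = (x_1, ..., x_n)`; so
`A = S / I` is a nonnegatively graded finite local algebra with degree zero part `A_0 = S_0 / (I ∩ S_0)`.
Suppose that `A_0` is a flat base change of a quotient `B = P / I₀` of `P = K[x, y]`: there are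
polynomials `θ x`, `θ y` in `S_0` and in `m`, with `I₀ = {p ∈ P : θ p ∈ I}`, and a commutative ring `R`
with ring homomorphisms `κ : S → R`, `ρ : R → S / I`, whose composite is the quotient map, such that `R`
is flat over `P` (by `κ θ`) and all elements of `I ∩ S_0` are mapped by `κ` into `I₀ R`. Suppose also that
`I₀` is quasi-homogeneous for some weights `v_0, v_1 ∈ ℕ` of `x, y` which are not zero in `K`, and that
`θ p ∈ m ^ 2` for some `p ∈ I₀`, `p ∉ (x, y) I₀`.

Then `Spec (S / I)` is not rigid: some linear map `I → S / I` is not induced by a derivation.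

This applies to `A_0 = B` quasi-homogeneous of embedding dimension two (`I₀ ≤ (x, y) ^ 2`), to
`A_0 = B ⊗ C` for such a `B` and any `C`, to complete intersections `A_0 ≠ K`, and to
`A_0 = R / (f, g) ^ k`, `f, g` a regular sequence in a local ring `R`, `k ≥ 2`. -/
theorem result (K : Type) [Field K] (n : ℕ) (w : Fin n → ℕ) (I : Ideal (MvPolynomial (Fin n) K))
    (hI1 : I ≠ ⊤) (hI : ∀ g ∈ I, ∀ k, weightedHomogeneousComponent w k g ∈ I)
    (hN : ∃ N : ℕ, Ideal.span (Set.range (X : Fin n → MvPolynomial (Fin n) K)) ^ N ≤ I)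
    (θ : MvPolynomial (Fin 2) K →ₐ[K] MvPolynomial (Fin n) K)
    (hθ : ∀ a, θ (X a) ∈ supported K {i | w i = 0} ∧
      θ (X a) ∈ Ideal.span (Set.range (X : Fin n → MvPolynomial (Fin n) K)))
    (R : Type) [CommRing R] (κ : MvPolynomial (Fin n) K →+* R)
    (ρ : R →+* (MvPolynomial (Fin n) K ⧸ I)) (hρ : ρ.comp κ = Ideal.Quotient.mk I)
    (hflat : (κ.comp θ.toRingHom).Flat)
    (hR : ∀ g ∈ I, g ∈ supported K {i | w i = 0} → κ g ∈ (I.comap θ).map (κ.comp θ.toRingHom))
    (v : Fin 2 → ℕ) (hv0 : (v 0 : K) ≠ 0) (hv1 : (v 1 : K) ≠ 0)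
    (hv : ∀ p ∈ I.comap θ, ∀ k, weightedHomogeneousComponent v k p ∈ I.comap θ)
    (p : MvPolynomial (Fin 2) K) (hp : p ∈ I.comap θ)
    (hp' : p ∉ Ideal.span (Set.range (X : Fin 2 → MvPolynomial (Fin 2) K)) * I.comap θ)
    (hp2 : θ p ∈ Ideal.span (Set.range (X : Fin n → MvPolynomial (Fin n) K)) ^ 2) :
    ∃ φ : I →ₗ[MvPolynomial (Fin n) K] (MvPolynomial (Fin n) K ⧸ I),
      ¬ ∃ a : Fin n → MvPolynomial (Fin n) K ⧸ I, ∀ g : I,
        φ g = ∑ i : Fin n,
          Ideal.Quotient.mk I (pderiv i (g : MvPolynomial (Fin n) K)) * a i :=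
  Pool.Agent.H66.Rig.Two.mainG w I hI1 hI hN θ hθ κ ρ hρ hflat hR v hv0 hv1 hv p hp hp' hp2

end Pool.Agent.Results.MP_562323_ag.GradedPart
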