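import Pool.Agent.H72.Rigid.Dims

namespace Pool.Agent.Results.MP_562323_ag.LoewyLength

open MvPolynomial Pool.Agent.H72.Rigid

/-- Lower bounds for `Hom_S(I, S/I)` and for `T¹` of the finite local algebras `A = S / I`, where
`S = K[x_1, ..., x_n]`, `K` is any field, `m = (x_1, ..., x_n)` and `m ^ N ≤ I`.

(1) `dim (I / m^(a+1) I) * dim (0 :_A m^(b+1)) ≤ C(n+a+b, n) * dim Hom_S(I, A)`; and if
`I ≤ m^(r+1)` and `x` is in `m^(a+1)` or in `m^(b+1)`, then the same product is at most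
`C(n+a+b, n) * (dim T¹ + n * dim A / (x A + (0 :_A m^r)))`.
(2) If `I ≤ m^2`: `dim Hom_S(I, A) ≤ dim T¹ + n (dim A - dim soc A)` and
`dim T¹ ≥ n (2 dim soc A - dim A)`.
(3) If `m^(s+c) ≤ I ≤ m^s`, then `dim Hom_S(I, A) ≤ dim T¹ + n * C(n+c, n)` and, with
`N_j = C(n+j-1, j)`, `dim (I / m I) * dim soc A ≤ dim T¹ + n N_c` and
`N_(s-1) * (N_s + ... + N_(s+c)) ≤ C(n+2c, n) * dim Hom_S(I, A)`.
(4) If `m^(s+c) ≤ I ≤ m^s` and `T¹ = 0`, then `n (c+1) s^(2n-2) ≤ ((c+n)(2c+n))^n` and, if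
`2c+1 ≤ s`, `n N_(2c) ≤ (2c+1) N_(c+1)`.
(5) If `s ≥ 2`, then `T¹ ≠ 0` in each of the following cases:
`m^(2s-2) ≤ I ≤ m^s` and `n (n+4s-5) > 2 (s-1)^2 (2s-3)`;
`m^(s+c) ≤ I ≤ m^s`, `n ≥ 4` and `2c+1 ≤ s < n (3/2)^(n-1)`;
`m^(s+1) ≤ I ≤ m^s`, `n ≥ 1`. -/
theorem result (K : Type) [Field K] (n : ℕ) (I : Ideal (MvPolynomial (Fin n) K)) :
    (∀ N : ℕ, mm K n ^ N ≤ I →
      (∀ a b : ℕ, genDim I (a + 1) * socDim I (b + 1) ≤ (n + (a + b)).choose n * homDim I) ∧
      (∀ (r a b : ℕ) (x : MvPolynomial (Fin n) K), I ≤ mm K n ^ (r + 1) →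
        (x ∈ mm K n ^ (a + 1) ∨ x ∈ mm K n ^ (b + 1)) →
        genDim I (a + 1) * socDim I (b + 1) ≤
          (n + (a + b)).choose n * (t1Dim I + n * cutDim I r x)) ∧
      (I ≤ mm K n ^ 2 →
        homDim I + n * socDim I 1 ≤ t1Dim I + n * algDim I ∧
        2 * n * socDim I 1 ≤ t1Dim I + n * algDim I)) ∧
    (∀ s c : ℕ, 1 ≤ n → 1 ≤ s → Between I s c →
      homDim I ≤ t1Dim I + n * (n + c).choose n ∧
      genDim I 1 * socDim I 1 ≤ t1Dim I + n * (n + c - 1).choose c ∧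
      (n + s - 2).choose (s - 1) *
          ∑ j ∈ Finset.range (c + 1), (n + s + j - 1).choose (s + j) ≤
        (n + 2 * c).choose n * homDim I ∧
      (Subsingleton (T1 I) →
        n * (c + 1) * s ^ (2 * n - 2) ≤ ((c + n) * (2 * c + n)) ^ n ∧
        (2 * c + 1 ≤ s →
          n * (n + 2 * c - 1).choose (2 * c) ≤ (2 * c + 1) * (n + c).choose (c + 1)))) ∧
    (∀ s : ℕ, 2 ≤ s → Between I s (s - 2) →
      2 * (s - 1) ^ 2 * (2 * s - 3) < n * (n + 4 * s - 5) → Nontrivial (T1 I)) ∧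
    (∀ s c : ℕ, 4 ≤ n → 2 ≤ s → Between I s c →
      2 * c + 1 ≤ s → s * 2 ^ (n - 1) < n * 3 ^ (n - 1) → Nontrivial (T1 I)) ∧
    (∀ s : ℕ, 1 ≤ n → 2 ≤ s → Between I s 1 → Nontrivial (T1 I)) := by
  have key : ∀ s c : ℕ, 1 ≤ n → 1 ≤ s → mm K n ^ (s + c) ≤ I → I ≤ mm K n ^ s →
      Subsingleton (T1 I) →
      (n + (s - 1) - 1).choose (s - 1) *
        ∑ j : Fin (c + 1), (n + (s - 1 + 1 + j) - 1).choose (s - 1 + 1 + j) ≤
      (n * (n + c).choose c) * (n + (c + c)).choose n := by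
    intro s c hn hs h1 h2 hT
    have h3 := main_ineq' hn I (s - 1) c (by
      have e : s - 1 + 1 + c = s + c := by omega
      rwa [e]) (by
      have e : s - 1 + 1 = s := by omega
      rwa [e])
    have h4 : Module.finrank K (T1 I) = 0 := Module.finrank_zero_of_subsingleton
    rwa [h4, add_zero] at h3
  refine ⟨fun N hN => ⟨fun a b => ?_, fun r a b x hr hx => ?_, fun h2 => ⟨?_, ?_⟩⟩,
    ?_, ?_, ?_, ?_⟩
  · have := quot_finite I hN
    rw [mul_comm ((n + (a + b)).choose n)]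
    exact hom_ge I a b
  · have := quot_finite I hN
    exact rig_ineq I r hr a b x hx
  · have := quot_finite I hN
    have a2 := range_add_le I h2
    have a3 := finrank_T1 I
    unfold socDim homDim t1Dim algDim
    rw [finrank_killed_one]
    omega
  · unfold socDim
    rw [finrank_killed_one]
    exact two_socle_le I hN h2
  · rintro s c hn hs ⟨h1, h2⟩
    refine and_assoc.1 (and_assoc.1 ⟨?_, fun hT => ?_⟩)
    swap
    · have h3 := key s c hn hs h1 h2 hT
      exact ⟨num_pow n s c hn hs h3, fun h => num_half n s c hn h h3⟩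
    obtain ⟨t, rfl⟩ : ∃ t, s = t + 1 := ⟨s - 1, by omega⟩
    have h0 := gens_mul_socle hn I t c h1 h2
    refine ⟨⟨hom_le_T1 I t c h1 h2, h0⟩, ?_⟩
    have h3 := hom_ge_powers hn I t c h1 h2
    rw [Finset.sum_range]
    have e1 : (n + (t + 1) - 2).choose (t + 1 - 1) = (n + t - 1).choose t := by
      have e : n + (t + 1) - 2 = n + t - 1 := by omega
      rw [e, Nat.add_sub_cancel]
    have e2 : ∑ j : Fin (c + 1), (n + (t + 1) + (j : ℕ) - 1).choose (t + 1 + j) =
        ∑ j : Fin (c + 1), (n + (t + 1 + j) - 1).choose (t + 1 + j) := by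
      refine Finset.sum_congr rfl fun j _ => ?_
      rw [Nat.add_assoc]
    have e4 : c + c = 2 * c := by omega
    rw [e1, e2, mul_comm ((n + 2 * c).choose n), ← e4]
    exact h3
  · rintro s hs ⟨h1', h2⟩ hb
    have h1 : mm K n ^ (2 * s - 2) ≤ I := by
      have e : s + (s - 2) = 2 * s - 2 := by omega
      rwa [e] at h1'
    have hn : 1 ≤ n := by
      rcases Nat.eq_zero_or_pos n with h | h
      · rw [h, Nat.zero_mul] at hb
        exact absurd hb (Nat.not_lt_zero _)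
      · exact h
    rcases Nat.lt_or_ge s 3 with h3 | h3
    · have e : s = 2 := by omega
      subst e
      exact consecutive hn 2 hs I ((Ideal.pow_le_pow_right (by omega)).trans h1) h2
    · by_contra hT
      rw [not_nontrivial_iff_subsingleton] at hT
      obtain ⟨c, rfl⟩ : ∃ c, s = c + 3 := ⟨s - 3, by omega⟩
      have h4 := key (c + 3) (c + 1) hn (by omega) (by
        have e : c + 3 + (c + 1) = 2 * (c + 3) - 2 := by omega
        rwa [e]) h2 hT
      refine num_many n c hn ?_ h4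
      have e1 : c + 3 - 1 = c + 2 := by omega
      have e2 : 2 * (c + 3) - 3 = 2 * c + 3 := by omega
      have e3 : n + 4 * (c + 3) - 5 = n + 4 * c + 7 := by omega
      rwa [e1, e2, e3] at hb
  · rintro s c hn hs ⟨h1, h2⟩ hc hb
    rcases Nat.eq_zero_or_pos c with h0 | h0
    · subst h0
      exact consecutive (by omega) s hs I ((Ideal.pow_le_pow_right (by omega)).trans h1) h2
    · by_contra hT
      rw [not_nontrivial_iff_subsingleton] at hT
      have h3 := num_half n s c (by omega) hc (key s c (by omega) (by omega) h1 h2 hT)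
      have h4 := half_all n c hn h0
        ((Nat.mul_le_mul_right _ hc).trans_lt hb)
      exact absurd h3 (Nat.not_le.2 h4)
  · rintro s hn hs ⟨h1, h2⟩
    exact consecutive hn s hs I h1 h2

end Pool.Agent.Results.MP_562323_ag.LoewyLength
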