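import Pool.Agent.H12.Rig.Final

namespace Pool.Agent.Results.MP_562323_ag.ThreeVariables

open MvPolynomial

/-- Let `I` be a homogeneous ideal of `K[x, y, z]`, `K` any field, with
`(x, y, z) ^ N ≤ I ≤ (x, y, z) ^ 2`. Then `Spec (K[x, y, z] / I)` is not rigid; more precisely
`T¹` is nonzero in a negative degree: there are `d ≥ 1` and a linear map `φ : I → K[x, y, z] / I`
which lowers degrees by `d` and which is not induced by a derivation. -/
theorem result (K : Type) [Field K] (I : Ideal (MvPolynomial (Fin 3) K))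
    (hI : ∀ f ∈ I, ∀ k, homogeneousComponent k f ∈ I)
    (hN : ∃ N : ℕ, Ideal.span (Set.range (X : Fin 3 → MvPolynomial (Fin 3) K)) ^ N ≤ I)
    (h2 : I ≤ Ideal.span (Set.range (X : Fin 3 → MvPolynomial (Fin 3) K)) ^ 2) :
    ∃ (d : ℕ) (φ : I →ₗ[MvPolynomial (Fin 3) K] (MvPolynomial (Fin 3) K ⧸ I)), 1 ≤ d ∧
      (∀ (k : ℕ) (f : I), (f : MvPolynomial (Fin 3) K).IsHomogeneous k →
        (k < d → φ f = 0) ∧ ∀ j, k = j + d → ∃ g : MvPolynomial (Fin 3) K, g.IsHomogeneous j ∧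
          φ f = Ideal.Quotient.mk I g) ∧
      ¬ ∃ a : Fin 3 → MvPolynomial (Fin 3) K ⧸ I, ∀ f : I,
        φ f = ∑ i : Fin 3,
          Ideal.Quotient.mk I (pderiv i (f : MvPolynomial (Fin 3) K)) * a i := by
  have h := Pool.Agent.H12.Rig.three I hI hN h2
  unfold Pool.Agent.H12.Rig.T1zero at h
  push Not at h
  obtain ⟨d, hd, φ, hφ, hφ2⟩ := h
  exact ⟨d, φ, hd, hφ, hφ2⟩

end Pool.Agent.Results.MP_562323_ag.ThreeVariables
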