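import Pool.Agent.H38.Rig.Fibre2
import Pool.Agent.H66.Rig.Crit

namespace Pool.Agent.Results.MP_562323_ag.Truncations

open MvPolynomial

/-- Let `K` be a field of characteristic zero, `S = K[x_1, ..., x_n]`, `m = (x_1, ..., x_n)`, and let
`I` be an ideal of `S` in one of the following cases.

(a) `I = J + m ^ s` for some ideal `J ≤ m ^ 2` and some `s ≥ 2` with `m ^ s` not contained in
`J + m ^ (s + 1)`: `S / I` is the infinitesimal neighbourhood of order `s` of a point, and it is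
not the whole scheme there.

(b) More generally, `m ^ q ≤ I ≤ m ^ 2`, and there are a minimal generator `f` of `I` (`f ∈ I`,
`f ∉ m I`) and a representative `t` of a socle element (`x_i t ∈ I` for all `i`) with
`t ∉ I + m (∂f/∂x_1, ..., ∂f/∂x_n)`.

(c) `m ^ q ≤ I`, and `I = P ∩ Q` with `P + Q = m` and `P ≠ I`, `Q ≠ I`: `S / I` is the fibre product
over `K` of the two finite local algebras `S / P` and `S / Q`, both different from `K`.

Then `Spec (S / I)` is not rigid: some linear map `I → S / I` is not induced by a derivation. -/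
theorem result (K : Type) [Field K] [CharZero K] (n : ℕ) (I : Ideal (MvPolynomial (Fin n) K))
    (h : (∃ (J : Ideal (MvPolynomial (Fin n) K)) (s : ℕ),
        J ≤ Ideal.span (Set.range (X : Fin n → MvPolynomial (Fin n) K)) ^ 2 ∧ 2 ≤ s ∧
        ¬ Ideal.span (Set.range (X : Fin n → MvPolynomial (Fin n) K)) ^ s ≤
          J ⊔ Ideal.span (Set.range (X : Fin n → MvPolynomial (Fin n) K)) ^ (s + 1) ∧
        I = J ⊔ Ideal.span (Set.range (X : Fin n → MvPolynomial (Fin n) K)) ^ s) ∨
      ((∃ q : ℕ, Ideal.span (Set.range (X : Fin n → MvPolynomial (Fin n) K)) ^ q ≤ I) ∧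
        I ≤ Ideal.span (Set.range (X : Fin n → MvPolynomial (Fin n) K)) ^ 2 ∧
        ∃ f t : MvPolynomial (Fin n) K, f ∈ I ∧
          f ∉ Ideal.span (Set.range (X : Fin n → MvPolynomial (Fin n) K)) * I ∧
          (∀ i, X i * t ∈ I) ∧
          t ∉ I ⊔ Ideal.span (Set.range (X : Fin n → MvPolynomial (Fin n) K)) *
            Ideal.span (Set.range fun i => pderiv i f)) ∨
      ((∃ q : ℕ, Ideal.span (Set.range (X : Fin n → MvPolynomial (Fin n) K)) ^ q ≤ I) ∧
        ∃ P Q : Ideal (MvPolynomial (Fin n) K), P ⊓ Q = I ∧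
          P ⊔ Q = Ideal.span (Set.range (X : Fin n → MvPolynomial (Fin n) K)) ∧
          P ≠ I ∧ Q ≠ I)) :
    ∃ φ : I →ₗ[MvPolynomial (Fin n) K] (MvPolynomial (Fin n) K ⧸ I),
      ¬ ∃ a : Fin n → MvPolynomial (Fin n) K ⧸ I, ∀ g : I,
        φ g = ∑ i : Fin n,
          Ideal.Quotient.mk I (pderiv i (g : MvPolynomial (Fin n) K)) * a i := by
  rcases h with ⟨J, s, hJ, hs, h, rfl⟩ | ⟨⟨q, hq⟩, hI, f, t, hf, hf2, ht, h⟩ |
    ⟨hq, P, Q, hPQ, hsup, hP, hQ⟩
  · exact Pool.Agent.H66.Rig.truncation J hJ s hs h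
  · exact Pool.Agent.H66.Rig.criterion q I hq hI f hf hf2 t ht h
  · exact Pool.Agent.H38.Rig.fibre hq hPQ hsup hP hQ

end Pool.Agent.Results.MP_562323_ag.Truncations
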